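import Pool.Agent.H699.MW.Gr

/-!
Functions of disjoint sets of coordinates are independent (statement S_PIF).
-/

set_option autoImplicit false

open MeasureTheory Finset ProbabilityTheory
open scoped Classical

namespace Pool.Agent.H389.MW.PIF

open Pool.Agent.H699.MW

variable {ι : Type} [Fintype ι]

/-- Extension by zero outside `S`. -/
noncomputable def ex (S : Finset ι) (x : S → ℝ) : ι → ℝ :=
  fun i => if h : i ∈ S then x ⟨i, h⟩ else 0

theorem ex_meas (S : Finset ι) : Measurable (ex S) := by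
  refine measurable_pi_lambda _ fun i => ?_
  unfold ex
  by_cases h : i ∈ S
  · simp only [h, dite_true]
    exact measurable_pi_apply _
  · simp only [h, dite_false]
    exact measurable_const

theorem indep_sets (μ : Measure ℝ) [IsProbabilityMeasure μ] (S T : Finset ι)
    (hST : Disjoint S T) (A B : Set (ι → ℝ)) (hA : MeasurableSet A) (hB : MeasurableSet B)
    (dA : ∀ ω ω', (∀ x ∈ S, ω x = ω' x) → (ω ∈ A ↔ ω' ∈ A))
    (dB : ∀ ω ω', (∀ x ∈ T, ω x = ω' x) → (ω ∈ B ↔ ω' ∈ B)) :
    (Measure.pi fun _ : ι => μ) (A ∩ B) =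
      (Measure.pi fun _ : ι => μ) A * (Measure.pi fun _ : ι => μ) B := by
  have h1 : iIndepFun (fun (i : ι) (ω : ι → ℝ) => ω i) (Measure.pi fun _ : ι => μ) :=
    iIndepFun_pi (X := fun _ x => x) (fun _ => aemeasurable_id)
  have h2 := h1.indepFun_finset S T hST (fun i => measurable_pi_apply i)
  have hA' : A = (fun (a : ι → ℝ) (i : S) => a i) ⁻¹' (ex S ⁻¹' A) := by
    ext ω
    simp only [Set.mem_preimage]
    exact dA _ _ (fun x hx => by simp [ex, hx])
  have hB' : B = (fun (a : ι → ℝ) (i : T) => a i) ⁻¹' (ex T ⁻¹' B) := by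
    ext ω
    simp only [Set.mem_preimage]
    exact dB _ _ (fun x hx => by simp [ex, hx])
  rw [indepFun_iff_measure_inter_preimage_eq_mul] at h2
  have h3 := h2 (ex S ⁻¹' A) (ex T ⁻¹' B) (ex_meas S hA) (ex_meas T hB)
  rw [← hA', ← hB'] at h3
  exact h3

theorem indep_many (μ : Measure ℝ) [IsProbabilityMeasure μ] {k : ℕ} (D : Fin k → Finset ι)
    (hD : ∀ i j, i ≠ j → Disjoint (D i) (D j)) (A : Fin k → Set (ι → ℝ))
    (hA : ∀ i, MeasurableSet (A i))
    (dA : ∀ i ω ω', (∀ x ∈ D i, ω x = ω' x) → (ω ∈ A i ↔ ω' ∈ A i)) (J : Finset (Fin k)) :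
    (Measure.pi fun _ : ι => μ) (⋂ i ∈ J, A i) =
      ∏ i ∈ J, (Measure.pi fun _ : ι => μ) (A i) := by
  induction J using Finset.induction_on with
  | empty => simp
  | insert j J hj ih =>
    rw [Finset.prod_insert hj, ← ih, Finset.set_biInter_insert]
    refine indep_sets μ (D j) (J.biUnion D) ?_ _ _ (hA j)
      (Finset.measurableSet_biInter J fun i _ => hA i) (dA j) ?_
    · rw [Finset.disjoint_biUnion_right]
      intro i hi
      exact hD j i (fun h => hj (h ▸ hi))
    · intro ω ω' h
      simp only [Set.mem_iInter]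
      refine forall_congr' fun i => forall_congr' fun hi => dA i ω ω' fun x hx => ?_
      exact h x (Finset.mem_biUnion.2 ⟨i, hi, hx⟩)

theorem t_PIF : S_PIF := by
  intro ι _ μ k e E f hμ hf he heE hE hfE
  have hP : IsProbabilityMeasure (Measure.pi fun _ : ι => μ) := inferInstance
  have hfm : ∀ i, IsProbabilityMeasure ((Measure.pi fun _ : ι => μ).map (f i)) := fun i =>
    Measure.isProbabilityMeasure_map (hf i).aemeasurable
  have hF : ∀ i : Fin k, Measurable (fun ω : ι → ℝ => (ω (e i), f i ω)) := fun i =>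
    (measurable_pi_apply (e i)).prodMk (hf i)
  have hFm : Measurable (fun (ω : ι → ℝ) (i : Fin k) => (ω (e i), f i ω)) :=
    measurable_pi_lambda _ hF
  have hev : ∀ i : Fin k, (Measure.pi fun _ : ι => μ).map (fun ω => ω (e i)) = μ := fun i =>
    (measurePreserving_eval (fun _ : ι => μ) (e i)).map_eq
  have hind : ∀ i : Fin k, (Measure.pi fun _ : ι => μ).map (fun ω => (ω (e i), f i ω)) =
      μ.prod ((Measure.pi fun _ : ι => μ).map (f i)) := by
    intro i
    have h1 : IndepFun (fun ω : ι → ℝ => ω (e i)) (f i) (Measure.pi fun _ : ι => μ) := by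
      rw [indepFun_iff_measure_inter_preimage_eq_mul]
      intro s t hs ht
      refine indep_sets μ {e i} (E i) ?_ _ _ (measurable_pi_apply (e i) hs) (hf i ht) ?_ ?_
      · rw [Finset.disjoint_singleton_left]
        exact heE i i
      · intro ω ω' h
        simp only [Set.mem_preimage]
        rw [h (e i) (Finset.mem_singleton_self _)]
      · intro ω ω' h
        simp only [Set.mem_preimage]
        rw [hfE i ω ω' h]
    rw [(indepFun_iff_map_prod_eq_prod_map_map (measurable_pi_apply (e i)).aemeasurable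
      (hf i).aemeasurable).1 h1, hev i]
  refine (Measure.pi_eq fun s hs => ?_).symm
  rw [Measure.map_apply hFm (MeasurableSet.univ_pi hs)]
  have hset : (fun (ω : ι → ℝ) (i : Fin k) => (ω (e i), f i ω)) ⁻¹' Set.univ.pi s =
      ⋂ i ∈ (Finset.univ : Finset (Fin k)), (fun ω : ι → ℝ => (ω (e i), f i ω)) ⁻¹' s i := by
    ext ω
    simp [Set.mem_pi]
  rw [hset, indep_many μ (fun i => insert (e i) (E i)) ?_ _ (fun i => hF i (hs i)) ?_]
  · refine Finset.prod_congr rfl fun i _ => ?_
    rw [← hind i, Measure.map_apply (hF i) (hs i)]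
  · intro i j hij
    rw [Finset.disjoint_insert_left, Finset.mem_insert, not_or, Finset.disjoint_insert_right]
    exact ⟨⟨fun h => hij (he h), heE i j⟩, heE j i, hE i j hij⟩
  · intro i ω ω' h
    simp only [Set.mem_preimage]
    rw [h (e i) (Finset.mem_insert_self _ _),
      hfE i ω ω' fun x hx => h x (Finset.mem_insert_of_mem hx)]

end Pool.Agent.H389.MW.PIF
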